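import Pool.Agent.Helper28.NF.Stmts

/-!
# Dimension free Beck-Fiala, module N3: domination of the truncated squares
-/

namespace Pool.Agent.Helper27.NF

open Finset MeasureTheory
open scoped Classical
open Pool.Agent.Helper28.NF

noncomputable section

variable {ι κ : Type} [Fintype ι] [Fintype κ]

omit [Fintype ι] in
lemma fv_add (S : κ → Finset ι) (x y : κ → ℝ) (v : ι) :
    fv S (x + y) v = fv S x v + fv S y v := by
  unfold fv
  rw [← Finset.sum_add_distrib]
  refine Finset.sum_congr rfl fun j _ => ?_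
  split_ifs
  · rfl
  · simp

omit [Fintype ι] in
lemma fv_sub (S : κ → Finset ι) (x y : κ → ℝ) (v : ι) :
    fv S (x - y) v = fv S x v - fv S y v := by
  unfold fv
  rw [← Finset.sum_sub_distrib]
  refine Finset.sum_congr rfl fun j _ => ?_
  split_ifs
  · rfl
  · simp

lemma Ph_nonneg (x : ℝ) : 0 ≤ Ph x := by
  unfold Ph
  positivity

/-- second difference of the potential -/
lemma second_diff (hPHI : ST_PHI) (S : κ → Finset ι) (L : κ → ℝ) (b : ι → ℝ) (hL : ∀ j, 0 < L j)
    (y e : κ → ℝ) :
    (Pot S L b (e + y) + Pot S L b (e - y)) / 2 - Pot S L b e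
      ≤ (∑ v, max (b v) 0 * Ph (fv S y v) + 2 * ∑ j, Real.log (1 + L j * y j ^ 2))
        + ∑ u, max (-b u) 0 * Ph (fv S y u)
          * (-(67 / 100) + 127 / 100 * (if 1 / 4 < |fv S e u| then 1 else 0)) := by
  obtain ⟨p1, p2, p3, p4⟩ := hPHI
  have h1 : (Pot S L b (e + y) + Pot S L b (e - y)) / 2 - Pot S L b e
      = 2 * ∑ j, ((Real.log (1 + L j * (e j + y j) ^ 2) + Real.log (1 + L j * (e j - y j) ^ 2)) / 2
          - Real.log (1 + L j * e j ^ 2))
        + ∑ v, b v * ((Ph (fv S e v + fv S y v) + Ph (fv S e v - fv S y v)) / 2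
          - Ph (fv S e v)) := by
    unfold Pot
    have e1 : ∑ j, ((Real.log (1 + L j * (e j + y j) ^ 2) + Real.log (1 + L j * (e j - y j) ^ 2)) / 2
          - Real.log (1 + L j * e j ^ 2))
        = (∑ j, Real.log (1 + L j * (e j + y j) ^ 2) + ∑ j, Real.log (1 + L j * (e j - y j) ^ 2)) / 2
          - ∑ j, Real.log (1 + L j * e j ^ 2) := by
      rw [Finset.sum_sub_distrib, ← Finset.sum_div, Finset.sum_add_distrib]
    have e2 : ∑ v, b v * ((Ph (fv S e v + fv S y v) + Ph (fv S e v - fv S y v)) / 2
          - Ph (fv S e v))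
        = (∑ v, b v * Ph (fv S e v + fv S y v) + ∑ v, b v * Ph (fv S e v - fv S y v)) / 2
          - ∑ v, b v * Ph (fv S e v) := by
      rw [← Finset.sum_add_distrib, Finset.sum_div, ← Finset.sum_sub_distrib]
      refine Finset.sum_congr rfl fun v _ => ?_
      ring
    rw [e1, e2]
    have e3 : ∀ v, fv S (e + y) v = fv S e v + fv S y v := fun v => fv_add S e y v
    have e4 : ∀ v, fv S (e - y) v = fv S e v - fv S y v := fun v => fv_sub S e y v
    simp only [e3, e4, Pi.add_apply, Pi.sub_apply]
    ring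
  rw [h1]
  have h2 : ∑ j, ((Real.log (1 + L j * (e j + y j) ^ 2) + Real.log (1 + L j * (e j - y j) ^ 2)) / 2
          - Real.log (1 + L j * e j ^ 2)) ≤ ∑ j, Real.log (1 + L j * y j ^ 2) :=
    Finset.sum_le_sum fun j _ => p4 (L j) (y j) (e j) (hL j).le
  have h3 : ∑ v, b v * ((Ph (fv S e v + fv S y v) + Ph (fv S e v - fv S y v)) / 2
          - Ph (fv S e v))
      ≤ ∑ v, (max (b v) 0 * Ph (fv S y v) + max (-b v) 0 * Ph (fv S y v)
          * (-(67 / 100) + 127 / 100 * (if 1 / 4 < |fv S e v| then 1 else 0))) := by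
    refine Finset.sum_le_sum fun v _ => ?_
    have hP := Ph_nonneg (fv S y v)
    rcases le_or_gt 0 (b v) with hb | hb
    · rw [max_eq_left hb, max_eq_right (by linarith : -b v ≤ 0)]
      have := mul_le_mul_of_nonneg_left (p1 (fv S y v) (fv S e v)) hb
      linarith
    · rw [max_eq_right hb.le, max_eq_left (by linarith : (0 : ℝ) ≤ -b v)]
      split_ifs with h
      · have := mul_le_mul_of_nonneg_left (p3 (fv S y v) (fv S e v)) (by linarith : (0 : ℝ) ≤ -b v)
        nlinarith
      · push Not at h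
        have := mul_le_mul_of_nonneg_left (p2 (fv S y v) (fv S e v) h)
          (by linarith : (0 : ℝ) ≤ -b v)
        nlinarith
  rw [Finset.sum_add_distrib] at h3
  linarith

theorem st_DOM (hPHI : ST_PHI) (hINT : ST_INT) : ST_DOM := by
  intro ι κ _ _ S L b hL hhap y
  obtain ⟨hint, hZ, hind⟩ := hINT ι κ S L b hL
  set w : (κ → ℝ) → ℝ := fun e => Real.exp (-Pot S L b e) with hw
  set A : ℝ := ∑ v, max (b v) 0 * Ph (fv S y v) + 2 * ∑ j, Real.log (1 + L j * y j ^ 2) with hA
  set p : ι → ℝ := fun u => max (-b u) 0 * Ph (fv S y u) with hp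
  have hp0 : ∀ u, 0 ≤ p u := fun u => mul_nonneg (le_max_right _ _) (Ph_nonneg _)
  set J : ι → ℝ := fun u => ∫ e : κ → ℝ, (if 1 / 4 < |fv S e u| then w e else 0) with hJ
  have hpJ : ∀ u, p u * J u ≤ p u * (1 / 4 * ZZ S L b) := by
    intro u
    rcases le_or_gt 0 (b u) with hb | hb
    · have : p u = 0 := by
        rw [hp]
        simp only
        rw [max_eq_right (by linarith : -b u ≤ 0), zero_mul]
      rw [this, zero_mul, zero_mul]
    · exact mul_le_mul_of_nonneg_left (hhap u hb) (hp0 u)
  -- the pointwise inequality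
  have hpt : ∀ e : κ → ℝ, w e - ((A - 67 / 100 * ∑ u, p u) * w e
      + 127 / 100 * ∑ u, p u * (if 1 / 4 < |fv S e u| then w e else 0))
      ≤ (w (e + y) + w (e - y)) / 2 := by
    intro e
    have hwe : 0 < w e := Real.exp_pos _
    have e1 : w e * (1 + (Pot S L b e - Pot S L b (e + y))) ≤ w (e + y) := by
      have h1 : w (e + y) = w e * Real.exp (Pot S L b e - Pot S L b (e + y)) := by
        rw [hw]
        simp only
        rw [← Real.exp_add]
        congr 1
        ring
      rw [h1]
      apply mul_le_mul_of_nonneg_left _ hwe.le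
      have := Real.add_one_le_exp (Pot S L b e - Pot S L b (e + y))
      linarith
    have e2 : w e * (1 + (Pot S L b e - Pot S L b (e - y))) ≤ w (e - y) := by
      have h1 : w (e - y) = w e * Real.exp (Pot S L b e - Pot S L b (e - y)) := by
        rw [hw]
        simp only
        rw [← Real.exp_add]
        congr 1
        ring
      rw [h1]
      apply mul_le_mul_of_nonneg_left _ hwe.le
      have := Real.add_one_le_exp (Pot S L b e - Pot S L b (e - y))
      linarith
    have e3 := second_diff hPHI S L b hL y e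
    have e4 := mul_le_mul_of_nonneg_left e3 hwe.le
    have e5 : w e * (A + ∑ u, max (-b u) 0 * Ph (fv S y u)
          * (-(67 / 100) + 127 / 100 * (if 1 / 4 < |fv S e u| then 1 else 0)))
        = (A - 67 / 100 * ∑ u, p u) * w e
          + 127 / 100 * ∑ u, p u * (if 1 / 4 < |fv S e u| then w e else 0) := by
      have f1 : ∑ u, max (-b u) 0 * Ph (fv S y u)
          * (-(67 / 100) + 127 / 100 * (if 1 / 4 < |fv S e u| then 1 else 0))
          = -(67 / 100) * ∑ u, p u + 127 / 100 * ∑ u, p u
            * (if 1 / 4 < |fv S e u| then 1 else 0) := by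
        rw [Finset.mul_sum, Finset.mul_sum, ← Finset.sum_add_distrib]
        refine Finset.sum_congr rfl fun u _ => ?_
        rw [hp]
        ring
      have f2 : ∑ u, p u * (if 1 / 4 < |fv S e u| then w e else 0)
          = w e * ∑ u, p u * (if 1 / 4 < |fv S e u| then 1 else 0) := by
        rw [Finset.mul_sum]
        refine Finset.sum_congr rfl fun u _ => ?_
        split_ifs
        · ring
        · ring
      rw [f1, f2]
      ring
    rw [← hA, e5] at e4
    nlinarith
  -- integrate
  have hwint : Integrable w := hint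
  have hi1 : Integrable (fun e => w (e + y)) := hwint.comp_add_right y
  have hi2 : Integrable (fun e => w (e - y)) := hwint.comp_sub_right y
  have hi3 : Integrable (fun e => (w (e + y) + w (e - y)) / 2) := (hi1.add hi2).div_const 2
  have hi4 : ∀ u, Integrable (fun e : κ → ℝ => p u * (if 1 / 4 < |fv S e u| then w e else 0)) :=
    fun u => (hind u).const_mul (p u)
  have hi5 : Integrable (fun e : κ → ℝ => ∑ u, p u * (if 1 / 4 < |fv S e u| then w e else 0)) :=
    integrable_finsetSum _ fun u _ => hi4 u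
  have hi6 : Integrable (fun e : κ → ℝ => (A - 67 / 100 * ∑ u, p u) * w e
      + 127 / 100 * ∑ u, p u * (if 1 / 4 < |fv S e u| then w e else 0)) :=
    (hwint.const_mul _).add (hi5.const_mul _)
  have hi7 : Integrable (fun e : κ → ℝ => w e - ((A - 67 / 100 * ∑ u, p u) * w e
      + 127 / 100 * ∑ u, p u * (if 1 / 4 < |fv S e u| then w e else 0))) := hwint.sub hi6
  have hle := integral_mono hi7 hi3 hpt
  have hZw : ∫ e, w e = ZZ S L b := rfl
  have r1 : ∫ e, (w (e + y) + w (e - y)) / 2 = ZZ S L b := by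
    rw [integral_div, integral_add hi1 hi2, integral_add_right_eq_self w y,
      integral_sub_right_eq_self w y, hZw]
    ring
  have r2 : ∫ e, (w e - ((A - 67 / 100 * ∑ u, p u) * w e
      + 127 / 100 * ∑ u, p u * (if 1 / 4 < |fv S e u| then w e else 0)))
      = ZZ S L b - ((A - 67 / 100 * ∑ u, p u) * ZZ S L b + 127 / 100 * ∑ u, p u * J u) := by
    rw [integral_sub hwint hi6, integral_add (hwint.const_mul _) (hi5.const_mul _),
      integral_const_mul, integral_const_mul, integral_finsetSum _ (fun u _ => hi4 u), hZw]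
    congr 3
    refine Finset.sum_congr rfl fun u _ => ?_
    rw [integral_const_mul]
  rw [r1, r2] at hle
  have hsum : ∑ u, p u * J u ≤ 1 / 4 * (∑ u, p u) * ZZ S L b := by
    calc ∑ u, p u * J u ≤ ∑ u, p u * (1 / 4 * ZZ S L b) := Finset.sum_le_sum fun u _ => hpJ u
      _ = 1 / 4 * (∑ u, p u) * ZZ S L b := by
        rw [← Finset.sum_mul]
        ring
  have hP0 : 0 ≤ ∑ u, p u := Finset.sum_nonneg fun u _ => hp0 u
  have hfin : 0 ≤ (A - 7 / 20 * ∑ u, p u) * ZZ S L b := by
    have : 0 ≤ (∑ u, p u) * ZZ S L b := mul_nonneg hP0 hZ.le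
    nlinarith
  have := nonneg_of_mul_nonneg_left hfin hZ
  linarith

end

end Pool.Agent.Helper27.NF
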