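import Pool.Agent.Helper28.NF.Stmts

/-!
# Dimension free Beck-Fiala, module N13: the sum of the errors of one set
-/

namespace Pool.Agent.Helper27.NF

open Finset
open scoped Classical
open Pool.Agent.Helper28.NF

noncomputable section

lemma geo_le (K D : ℕ) : ∑ i ∈ range K, (1 / 2 : ℝ) ^ (D + (K - 1 - i)) ≤ 2 * (1 / 2 : ℝ) ^ D := by
  have h1 : ∑ i ∈ range K, (1 / 2 : ℝ) ^ (K - 1 - i) = ∑ i ∈ range K, (1 / 2 : ℝ) ^ i :=
    Finset.sum_range_reflect (fun i => (1 / 2 : ℝ) ^ i) K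
  have h2 : ∑ i ∈ range K, (1 / 2 : ℝ) ^ (D + (K - 1 - i))
      = (1 / 2 : ℝ) ^ D * ∑ i ∈ range K, (1 / 2 : ℝ) ^ (K - 1 - i) := by
    rw [Finset.mul_sum]
    exact Finset.sum_congr rfl fun i _ => by rw [pow_add]
  rw [h2, h1]
  have h3 : ∑ i ∈ range K, (1 / 2 : ℝ) ^ i ≤ 2 := sum_geometric_two_le K
  have h4 : (0 : ℝ) ≤ (1 / 2 : ℝ) ^ D := by positivity
  nlinarith

/-- the waiting steps of one group -/
lemma wait_le (j D : ℕ) (x y : ℝ) (hx : 0 ≤ x) (hy : 0 ≤ y) (c : ℕ → ℝ) (I : Finset ℕ)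
    (h : ∀ i ∈ I, i < j ∧ c i ≤ x ∧ c i ≤ y * (1 / 2 : ℝ) ^ (j - 1 - i)) :
    ∑ i ∈ I, c i ≤ D * x + 2 * y * (1 / 2 : ℝ) ^ D := by
  have h1 : ∀ i ∈ I, c i ≤ if j - D ≤ i then x else y * (1 / 2 : ℝ) ^ (j - 1 - i) := by
    intro i hi
    split_ifs with h2
    · exact (h i hi).2.1
    · exact (h i hi).2.2
  have h2 : I ⊆ range j := fun i hi => mem_range.2 (h i hi).1
  calc ∑ i ∈ I, c i ≤ ∑ i ∈ I, (if j - D ≤ i then x else y * (1 / 2 : ℝ) ^ (j - 1 - i)) :=
        Finset.sum_le_sum h1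
    _ ≤ ∑ i ∈ range j, (if j - D ≤ i then x else y * (1 / 2 : ℝ) ^ (j - 1 - i)) := by
        apply Finset.sum_le_sum_of_subset_of_nonneg h2
        intro i _ _
        split_ifs
        · exact hx
        · positivity
    _ = ∑ i ∈ (range j).filter (fun i => j - D ≤ i), x
        + ∑ i ∈ (range j).filter (fun i => ¬ j - D ≤ i), y * (1 / 2 : ℝ) ^ (j - 1 - i) :=
        Finset.sum_ite _ _
    _ ≤ D * x + 2 * y * (1 / 2 : ℝ) ^ D := by
        have h3 : ∑ i ∈ (range j).filter (fun i => j - D ≤ i), x ≤ D * x := by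
          rw [Finset.sum_const, nsmul_eq_mul]
          apply mul_le_mul_of_nonneg_right _ hx
          have h4 : (range j).filter (fun i => j - D ≤ i) ⊆ Ico (j - D) j := by
            intro i hi
            rw [mem_filter, mem_range] at hi
            exact mem_Ico.2 ⟨hi.2, hi.1⟩
          have h5 := card_le_card h4
          rw [Nat.card_Ico] at h5
          have h6 : #((range j).filter (fun i => j - D ≤ i)) ≤ D := by omega
          exact_mod_cast h6
        have h7 : ∑ i ∈ (range j).filter (fun i => ¬ j - D ≤ i), y * (1 / 2 : ℝ) ^ (j - 1 - i)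
            ≤ 2 * y * (1 / 2 : ℝ) ^ D := by
          have h8 : (range j).filter (fun i => ¬ j - D ≤ i) = range (j - D) := by
            ext i
            rw [mem_filter, mem_range, mem_range]
            omega
          rw [h8]
          have h9 : ∑ i ∈ range (j - D), y * (1 / 2 : ℝ) ^ (j - 1 - i)
              = y * ∑ i ∈ range (j - D), (1 / 2 : ℝ) ^ (D + ((j - D) - 1 - i)) := by
            rw [Finset.mul_sum]
            refine Finset.sum_congr rfl fun i hi => ?_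
            rw [mem_range] at hi
            congr 2
            omega
          rw [h9]
          have h10 := geo_le (j - D) D
          nlinarith
        linarith

/-- one group of steps -/
lemma group_le (n : ℕ → ℕ) (hn : Antitone n) (tch : ℕ → Prop) (c : ℕ → ℝ) (q g H Q a : ℕ) (s : ℝ)
    (hs : 1 ≤ s) (hq : 2 ≤ q) (hQ : q ≤ 2 ^ Q)
    (h1 : ∀ i, c i ≤ s * (1 / 16 : ℝ) ^ (Nat.log q (n i)))
    (h2 : ∀ i j, i < j → (∀ l, i ≤ l → l < j → ¬ tch l) →
      c i ≤ (2 : ℝ) ^ H * n i * (1 / 2 : ℝ) ^ (j - 1 - i))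
    (h3 : ∀ i, (∀ l, i ≤ l → ¬ tch l) → c i ≤ 0)
    (h4 : ∀ j, tch j → q * n (j + g) ≤ n j)
    (h5 : ∀ i l, n l = 0 → l < i → c i ≤ 0) (I : Finset ℕ) (hI : ∀ i ∈ I, Nat.log q (n i) = a) :
    ∑ i ∈ I, c i ≤ (1 / 2 : ℝ) ^ a * (s * (g + 1) + s * (H + 1 + Q) + 2) := by
  have hpos : (0 : ℝ) ≤ (1 / 2 : ℝ) ^ a * (s * (g + 1) + s * (H + 1 + Q) + 2) := by positivity
  by_cases hj : ∃ j, tch j ∧ ∃ i ∈ I, i ≤ j
  swap
  · refine le_trans (Finset.sum_nonpos fun i hi => ?_) hpos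
    apply h3 i
    intro l hl ht
    exact hj ⟨l, ht, i, hi, hl⟩
  obtain ⟨j, ⟨hjt, i1, hi1, hij1⟩, hjmin⟩ : ∃ j, (tch j ∧ ∃ i ∈ I, i ≤ j) ∧
      ∀ l, l < j → ¬ (tch l ∧ ∃ i ∈ I, i ≤ l) :=
    ⟨Nat.find hj, Nat.find_spec hj, fun l hl => Nat.find_min hj hl⟩
  have hs0 : (0 : ℝ) ≤ s := by linarith
  -- split
  have hsplit : ∑ i ∈ I, c i = ∑ i ∈ I.filter (fun i => i < j), c i
      + ∑ i ∈ I.filter (fun i => ¬ i < j), c i :=
    (Finset.sum_filter_add_sum_filter_not I (fun i => i < j) c).symm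
  rw [hsplit]
  -- the waiting part
  have hA : ∑ i ∈ I.filter (fun i => i < j), c i
      ≤ ((H + (a + 1) * Q + a : ℕ) : ℝ) * (s * (1 / 16 : ℝ) ^ a)
        + 2 * ((2 : ℝ) ^ H * (q : ℝ) ^ (a + 1)) * (1 / 2 : ℝ) ^ (H + (a + 1) * Q + a) := by
    apply wait_le j (H + (a + 1) * Q + a)
    · positivity
    · positivity
    · intro i hi
      rw [mem_filter] at hi
      refine ⟨hi.2, ?_, ?_⟩
      · have := h1 i
        rw [hI i hi.1] at this
        exact this
      · refine (h2 i j hi.2 ?_).trans ?_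
        · intro l hl hlj ht
          exact hjmin l hlj ⟨ht, i, hi.1, hl⟩
        · have h6 : n i < q ^ (a + 1) := by
            have := Nat.lt_pow_succ_log_self (b := q) (by omega) (n i)
            rw [hI i hi.1] at this
            exact this
          have h7 : (n i : ℝ) ≤ (q : ℝ) ^ (a + 1) := by exact_mod_cast h6.le
          have h8 : (0 : ℝ) ≤ (1 / 2 : ℝ) ^ (j - 1 - i) := by positivity
          have h9 : (0 : ℝ) ≤ (2 : ℝ) ^ H := by positivity
          exact mul_le_mul_of_nonneg_right (mul_le_mul_of_nonneg_left h7 h9) h8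
  have hA2 : 2 * ((2 : ℝ) ^ H * (q : ℝ) ^ (a + 1)) * (1 / 2 : ℝ) ^ (H + (a + 1) * Q + a)
      ≤ 2 * (1 / 2 : ℝ) ^ a := by
    have h6 : (q : ℝ) ^ (a + 1) ≤ (2 : ℝ) ^ ((a + 1) * Q) := by
      have h7 : (q : ℝ) ≤ 2 ^ Q := by exact_mod_cast hQ
      calc (q : ℝ) ^ (a + 1) ≤ (2 ^ Q) ^ (a + 1) := pow_le_pow_left₀ (by positivity) h7 _
        _ = (2 : ℝ) ^ ((a + 1) * Q) := by rw [← pow_mul, mul_comm]
    have h8 : (2 : ℝ) ^ H * (2 : ℝ) ^ ((a + 1) * Q) * (1 / 2 : ℝ) ^ (H + (a + 1) * Q + a)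
        = (1 / 2 : ℝ) ^ a := by
      rw [pow_add (1 / 2 : ℝ), pow_add (1 / 2 : ℝ)]
      have e1 : (2 : ℝ) ^ H * (1 / 2 : ℝ) ^ H = 1 := by
        rw [← mul_pow]; norm_num
      have e2 : (2 : ℝ) ^ ((a + 1) * Q) * (1 / 2 : ℝ) ^ ((a + 1) * Q) = 1 := by
        rw [← mul_pow]; norm_num
      calc (2 : ℝ) ^ H * (2 : ℝ) ^ ((a + 1) * Q)
            * ((1 / 2 : ℝ) ^ H * (1 / 2 : ℝ) ^ ((a + 1) * Q) * (1 / 2 : ℝ) ^ a)
          = ((2 : ℝ) ^ H * (1 / 2 : ℝ) ^ H)
            * ((2 : ℝ) ^ ((a + 1) * Q) * (1 / 2 : ℝ) ^ ((a + 1) * Q)) * (1 / 2 : ℝ) ^ a := by ring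
        _ = (1 / 2 : ℝ) ^ a := by rw [e1, e2]; ring
    have h9 : (2 : ℝ) ^ H * (q : ℝ) ^ (a + 1) * (1 / 2 : ℝ) ^ (H + (a + 1) * Q + a)
        ≤ (2 : ℝ) ^ H * (2 : ℝ) ^ ((a + 1) * Q) * (1 / 2 : ℝ) ^ (H + (a + 1) * Q + a) := by
      apply mul_le_mul_of_nonneg_right _ (by positivity)
      exact mul_le_mul_of_nonneg_left h6 (by positivity)
    calc 2 * ((2 : ℝ) ^ H * (q : ℝ) ^ (a + 1)) * (1 / 2 : ℝ) ^ (H + (a + 1) * Q + a)
        = 2 * ((2 : ℝ) ^ H * (q : ℝ) ^ (a + 1) * (1 / 2 : ℝ) ^ (H + (a + 1) * Q + a)) := by ring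
      _ ≤ 2 * (1 / 2 : ℝ) ^ a := by
        rw [h8] at h9
        linarith
  -- the active part
  have hB : ∑ i ∈ I.filter (fun i => ¬ i < j), c i ≤ (g + 1) * (s * (1 / 16 : ℝ) ^ a) := by
    have h6 : ∀ i ∈ I.filter (fun i => ¬ i < j),
        c i ≤ if i < j + g + 1 then s * (1 / 16 : ℝ) ^ a else 0 := by
      intro i hi
      rw [mem_filter] at hi
      split_ifs with h7
      · have := h1 i
        rw [hI i hi.1] at this
        exact this
      · have hij : j ≤ i := by omega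
        have e1 : Nat.log q (n j) ≤ a := by
          rw [← hI i1 hi1]
          exact Nat.log_mono_right (hn hij1)
        have e2 : n j < q ^ (a + 1) := by
          have e3 := Nat.lt_pow_succ_log_self (b := q) (by omega) (n j)
          exact lt_of_lt_of_le e3 (Nat.pow_le_pow_right (by omega) (by omega))
        have e4 : q * n (j + g) < q * q ^ a := by
          calc q * n (j + g) ≤ n j := h4 j hjt
            _ < q ^ (a + 1) := e2
            _ = q * q ^ a := by rw [pow_succ, mul_comm]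
        have e5 : n (j + g) < q ^ a := lt_of_mul_lt_mul_left e4 (Nat.zero_le q)
        rcases Nat.eq_zero_or_pos a with ha | ha
        · rw [ha, pow_zero] at e5
          exact h5 i (j + g) (by omega) (by omega)
        · exfalso
          have e6 : n i < q ^ a := lt_of_le_of_lt (hn (by omega : j + g ≤ i)) e5
          have e7 : Nat.log q (n i) < a := Nat.log_lt_of_lt_pow' (by omega) e6
          rw [hI i hi.1] at e7
          exact lt_irrefl _ e7
    refine (Finset.sum_le_sum h6).trans ?_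
    rw [← Finset.sum_filter, Finset.sum_const, nsmul_eq_mul]
    apply mul_le_mul_of_nonneg_right _ (by positivity)
    have h7 : ((I.filter (fun i => ¬ i < j)).filter (fun i => i < j + g + 1)) ⊆ Ico j (j + g + 1) := by
      intro i hi
      rw [mem_filter, mem_filter] at hi
      rw [mem_Ico]
      omega
    have h8 := card_le_card h7
    rw [Nat.card_Ico] at h8
    have h9 : #((I.filter (fun i => ¬ i < j)).filter (fun i => i < j + g + 1)) ≤ g + 1 := by omega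
    exact_mod_cast h9
  -- summary
  have hgeo : ((a : ℝ) + 1) * (1 / 16 : ℝ) ^ a ≤ (1 / 2 : ℝ) ^ a := by
    have e1 : ((a : ℝ) + 1) ≤ 8 ^ a := by
      have e2 : a + 1 ≤ 8 ^ a := by
        have : a < 8 ^ a := Nat.lt_pow_self (by norm_num)
        omega
      exact_mod_cast e2
    have e3 : (8 : ℝ) ^ a * (1 / 16 : ℝ) ^ a = (1 / 2 : ℝ) ^ a := by
      rw [← mul_pow]; norm_num
    rw [← e3]
    exact mul_le_mul_of_nonneg_right e1 (by positivity)
  have h16 : (0 : ℝ) ≤ (1 / 16 : ℝ) ^ a := by positivity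
  have h16' : (1 / 16 : ℝ) ^ a ≤ (1 / 2 : ℝ) ^ a :=
    pow_le_pow_left₀ (by norm_num) (by norm_num) a
  have hA3 : ((H + (a + 1) * Q + a : ℕ) : ℝ) * (s * (1 / 16 : ℝ) ^ a)
      ≤ s * (H + 1 + Q) * (1 / 2 : ℝ) ^ a := by
    have e1 : ((H + (a + 1) * Q + a : ℕ) : ℝ) ≤ (H + 1 + Q) * (a + 1) := by
      push_cast
      have : (0 : ℝ) ≤ (H : ℝ) * a := by positivity
      nlinarith
    calc ((H + (a + 1) * Q + a : ℕ) : ℝ) * (s * (1 / 16 : ℝ) ^ a)
        ≤ ((H + 1 + Q) * (a + 1)) * (s * (1 / 16 : ℝ) ^ a) :=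
          mul_le_mul_of_nonneg_right e1 (by positivity)
      _ = s * (H + 1 + Q) * (((a : ℝ) + 1) * (1 / 16 : ℝ) ^ a) := by ring
      _ ≤ s * (H + 1 + Q) * (1 / 2 : ℝ) ^ a := mul_le_mul_of_nonneg_left hgeo (by positivity)
  have hB3 : ((g : ℝ) + 1) * (s * (1 / 16 : ℝ) ^ a) ≤ s * (g + 1) * (1 / 2 : ℝ) ^ a := by
    calc ((g : ℝ) + 1) * (s * (1 / 16 : ℝ) ^ a) = s * (g + 1) * (1 / 16 : ℝ) ^ a := by ring
      _ ≤ s * (g + 1) * (1 / 2 : ℝ) ^ a := mul_le_mul_of_nonneg_left h16' (by positivity)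
  have hfin : (1 / 2 : ℝ) ^ a * (s * (g + 1) + s * (H + 1 + Q) + 2)
      = s * (g + 1) * (1 / 2 : ℝ) ^ a + s * (H + 1 + Q) * (1 / 2 : ℝ) ^ a + 2 * (1 / 2 : ℝ) ^ a := by
    ring
  rw [hfin]
  linarith

/-- all steps -/
lemma total_le (n : ℕ → ℕ) (hn : Antitone n) (tch : ℕ → Prop) (c : ℕ → ℝ) (q g H Q : ℕ) (s : ℝ)
    (hs : 1 ≤ s) (hq : 2 ≤ q) (hQ : q ≤ 2 ^ Q)
    (h1 : ∀ i, c i ≤ s * (1 / 16 : ℝ) ^ (Nat.log q (n i)))
    (h2 : ∀ i j, i < j → (∀ l, i ≤ l → l < j → ¬ tch l) →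
      c i ≤ (2 : ℝ) ^ H * n i * (1 / 2 : ℝ) ^ (j - 1 - i))
    (h3 : ∀ i, (∀ l, i ≤ l → ¬ tch l) → c i ≤ 0)
    (h4 : ∀ j, tch j → q * n (j + g) ≤ n j)
    (h5 : ∀ i l, n l = 0 → l < i → c i ≤ 0) (N : ℕ) :
    ∑ i ∈ Icc 1 N, c i ≤ 2 * (s * (g + 1) + s * (H + 1 + Q) + 2) := by
  have hmap : ∀ i ∈ Icc 1 N, Nat.log q (n i) ∈ range (Nat.log q (n 0) + 1) := by
    intro i _
    rw [mem_range]
    have := Nat.log_mono_right (b := q) (hn (Nat.zero_le i))
    omega
  rw [← Finset.sum_fiberwise_of_maps_to hmap]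
  have h6 : ∀ a ∈ range (Nat.log q (n 0) + 1),
      ∑ i ∈ (Icc 1 N).filter (fun i => Nat.log q (n i) = a), c i
        ≤ (1 / 2 : ℝ) ^ a * (s * (g + 1) + s * (H + 1 + Q) + 2) := by
    intro a _
    apply group_le n hn tch c q g H Q a s hs hq hQ h1 h2 h3 h4 h5
    intro i hi
    exact (mem_filter.1 hi).2
  refine (Finset.sum_le_sum h6).trans ?_
  rw [← Finset.sum_mul]
  apply mul_le_mul_of_nonneg_right (sum_geometric_two_le _)
  positivity

lemma prof_le (m x q : ℕ) (hm : 2 ≤ m) (hq : q = m ^ 2) :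
    Real.sqrt (prof m x) ≤ (1 / 16 : ℝ) ^ (Nat.log q x) := by
  have hm0 : (2 : ℝ) ≤ m := by exact_mod_cast hm
  unfold prof
  split_ifs with h
  · have h' : x ≤ m := by exact_mod_cast h
    have h2 : x < q := by
      rw [hq]
      nlinarith
    rw [Nat.log_of_lt h2]
    simp
  · push Not at h
    have h' : m < x := by exact_mod_cast h
    have hx0 : (0 : ℝ) < x := by linarith
    have e1 : ((m : ℝ) / x) ^ 8 = (((m : ℝ) / x) ^ 4) ^ 2 := by ring
    rw [e1, Real.sqrt_sq (by positivity)]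
    set a := Nat.log q x with ha
    rcases Nat.eq_zero_or_pos a with h0 | h0
    · rw [h0, pow_zero]
      have : (m : ℝ) / x ≤ 1 := by
        rw [div_le_one hx0]; exact h.le
      exact pow_le_one₀ (by positivity) this
    · have e2 : q ^ a ≤ x := Nat.pow_log_le_self q (by omega)
      have e3 : m * m ^ a ≤ x := by
        calc m * m ^ a = m ^ (a + 1) := by rw [pow_succ, mul_comm]
          _ ≤ m ^ (2 * a) := Nat.pow_le_pow_right (by omega) (by omega)
          _ = q ^ a := by rw [hq, pow_mul]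
          _ ≤ x := e2
      have e4 : (m : ℝ) / x ≤ (1 / 2 : ℝ) ^ a := by
        rw [div_le_iff₀ hx0]
        have e5 : (m : ℝ) * (m : ℝ) ^ a ≤ x := by exact_mod_cast e3
        have e6 : (2 : ℝ) ^ a ≤ (m : ℝ) ^ a := pow_le_pow_left₀ (by norm_num) hm0 a
        have e7 : (m : ℝ) * 2 ^ a ≤ x := by nlinarith
        have e8 : (1 / 2 : ℝ) ^ a * 2 ^ a = 1 := by rw [← mul_pow]; norm_num
        have e9 : (0 : ℝ) ≤ (1 / 2 : ℝ) ^ a := by positivity
        calc (m : ℝ) = (1 / 2 : ℝ) ^ a * ((m : ℝ) * 2 ^ a) := by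
              rw [mul_comm (m : ℝ), ← mul_assoc, e8, one_mul]
          _ ≤ (1 / 2 : ℝ) ^ a * x := mul_le_mul_of_nonneg_left e7 e9
      calc ((m : ℝ) / x) ^ 4 ≤ ((1 / 2 : ℝ) ^ a) ^ 4 := pow_le_pow_left₀ (by positivity) e4 4
        _ = (1 / 16 : ℝ) ^ a := by
          rw [← pow_mul, mul_comm, pow_mul]; norm_num

theorem st_ERR : ST_ERR := by
  intro H M0 hM0
  refine ⟨2 * (H + 13 + 4 * Real.log M0), ?_⟩
  intro ι _ T k t g N s ht hs hc
  set m : ℕ := M0 * t ^ 2 with hm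
  set q : ℕ := m ^ 2 with hq
  have hm2 : 2 ≤ m := by
    have : 1 ≤ t ^ 2 := Nat.one_le_pow _ _ ht
    nlinarith
  have hq2 : 2 ≤ q := by nlinarith
  have hmr : ((M0 : ℝ) * (t : ℝ) ^ 2) = (m : ℝ) := by rw [hm]; push_cast; ring
  set n : ℕ → ℕ := fun i => #(T.filter (fun v => i ≤ k v)) with hn
  have hanti : Antitone n := by
    intro i j hij
    apply card_le_card
    intro v hv
    rw [mem_filter] at hv ⊢
    exact ⟨hv.1, hij.trans hv.2⟩
  set tch : ℕ → Prop := fun i => T.filter (fun v => k v + 1 = i) ≠ ∅ with htch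
  have htiff : ∀ i, tch i ↔ ∃ u ∈ T, k u + 1 = i := by
    intro i
    rw [htch]
    simp only
    rw [← Finset.nonempty_iff_ne_empty]
    constructor
    · rintro ⟨u, hu⟩
      exact ⟨u, (mem_filter.1 hu).1, (mem_filter.1 hu).2⟩
    · rintro ⟨u, hu, hk⟩
      exact ⟨u, mem_filter.2 ⟨hu, hk⟩⟩
  set c : ℕ → ℝ := fun i => if T.filter (fun v => k v + 1 = i) = ∅
        then min (s * Real.sqrt (prof (M0 * t ^ 2) (#(T.filter (fun v => i ≤ k v)))))
          (∑ v ∈ T.filter (fun v => i ≤ k v), 2 ^ H * (1 / 2 : ℝ) ^ (k v - i))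
        else s * Real.sqrt (prof (M0 * t ^ 2) (#(T.filter (fun v => i ≤ k v)))) with hcdef
  set Q : ℕ := Nat.log 2 q + 1 with hQdef
  have hQ : q ≤ 2 ^ Q := (Nat.lt_pow_succ_log_self (by norm_num) q).le
  have hs0 : (0 : ℝ) ≤ s := by linarith
  have h1 : ∀ i, c i ≤ s * (1 / 16 : ℝ) ^ (Nat.log q (n i)) := by
    intro i
    have e1 : c i ≤ s * Real.sqrt (prof m (n i)) := by
      rw [hcdef]
      simp only
      rw [hmr]
      split_ifs
      · exact min_le_left _ _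
      · exact le_refl _
    exact e1.trans (mul_le_mul_of_nonneg_left (prof_le m (n i) q hm2 hq) hs0)
  have h2 : ∀ i j, i < j → (∀ l, i ≤ l → l < j → ¬ tch l) →
      c i ≤ (2 : ℝ) ^ H * n i * (1 / 2 : ℝ) ^ (j - 1 - i) := by
    intro i j hij hl
    have hti : T.filter (fun v => k v + 1 = i) = ∅ := by
      have := hl i le_rfl hij
      rw [htch] at this
      simpa using this
    have e1 : c i ≤ ∑ v ∈ T.filter (fun v => i ≤ k v), 2 ^ H * (1 / 2 : ℝ) ^ (k v - i) := by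
      rw [hcdef]
      simp only
      rw [if_pos hti]
      exact min_le_right _ _
    refine e1.trans ?_
    have e2 : ∀ v ∈ T.filter (fun v => i ≤ k v), (2 : ℝ) ^ H * (1 / 2 : ℝ) ^ (k v - i)
        ≤ (2 : ℝ) ^ H * (1 / 2 : ℝ) ^ (j - 1 - i) := by
      intro v hv
      rw [mem_filter] at hv
      have e3 : j ≤ k v + 1 := by
        by_contra h
        push Not at h
        exact hl (k v + 1) (by omega) h ((htiff _).2 ⟨v, hv.1, rfl⟩)
      apply mul_le_mul_of_nonneg_left _ (by positivity)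
      exact pow_le_pow_of_le_one (by norm_num) (by norm_num) (by omega)
    refine (Finset.sum_le_sum e2).trans ?_
    rw [Finset.sum_const, nsmul_eq_mul]
    apply le_of_eq
    rw [hn]
    ring
  have h3 : ∀ i, (∀ l, i ≤ l → ¬ tch l) → c i ≤ 0 := by
    intro i hl
    have hti : T.filter (fun v => k v + 1 = i) = ∅ := by
      have := hl i le_rfl
      rw [htch] at this
      simpa using this
    have e1 : c i ≤ ∑ v ∈ T.filter (fun v => i ≤ k v), 2 ^ H * (1 / 2 : ℝ) ^ (k v - i) := by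
      rw [hcdef]
      simp only
      rw [if_pos hti]
      exact min_le_right _ _
    have e2 : T.filter (fun v => i ≤ k v) = ∅ := by
      rw [Finset.eq_empty_iff_forall_notMem]
      intro v hv
      rw [mem_filter] at hv
      exact hl (k v + 1) (by omega) ((htiff _).2 ⟨v, hv.1, rfl⟩)
    rw [e2, Finset.sum_empty] at e1
    exact e1
  have h4 : ∀ j, tch j → q * n (j + g) ≤ n j := by
    intro j hj
    exact hc j ((htiff j).1 hj)
  have h5 : ∀ i l, n l = 0 → l < i → c i ≤ 0 := by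
    intro i l hl hli
    apply h3 i
    intro l' hl' ht'
    obtain ⟨u, hu, hk⟩ := (htiff l').1 ht'
    have e1 : T.filter (fun v => l ≤ k v) = ∅ := by
      rw [hn] at hl
      simpa [Finset.card_eq_zero] using hl
    have e2 : u ∈ T.filter (fun v => l ≤ k v) := by
      rw [mem_filter]
      exact ⟨hu, by omega⟩
    rw [e1] at e2
    exact absurd e2 (Finset.notMem_empty u)
  have htot := total_le n hanti tch c q g H Q s hs hq2 hQ h1 h2 h3 h4 h5 N
  refine htot.trans ?_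
  -- the size of Q
  have hqpos : (0 : ℝ) < q := by
    have : 0 < q := by omega
    exact_mod_cast this
  have hlog2 : (1 : ℝ) / 2 ≤ Real.log 2 := by
    have := Real.log_two_gt_d9
    linarith
  have hQ1 : ((Nat.log 2 q : ℕ) : ℝ) ≤ 2 * Real.log q := by
    have e1 : 2 ^ (Nat.log 2 q) ≤ q := Nat.pow_log_le_self 2 (by omega)
    have e2 : ((2 : ℝ) ^ (Nat.log 2 q)) ≤ q := by exact_mod_cast e1
    have e3 := Real.log_le_log (by positivity) e2
    rw [Real.log_pow] at e3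
    have e4 : (0 : ℝ) ≤ ((Nat.log 2 q : ℕ) : ℝ) := by positivity
    nlinarith
  have ht1 : (1 : ℝ) ≤ t := by exact_mod_cast ht
  have hM1 : (2 : ℝ) ≤ M0 := by exact_mod_cast hM0
  have hlq : Real.log q = 2 * Real.log M0 + 4 * Real.log t := by
    rw [hq, hm]
    push_cast
    rw [Real.log_pow, Real.log_mul (by positivity) (by positivity), Real.log_pow]
    push_cast
    ring
  have hlt : 0 ≤ Real.log t := Real.log_nonneg ht1
  have hlM : 0 ≤ Real.log M0 := Real.log_nonneg (by linarith)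
  have hQr : (Q : ℝ) ≤ 1 + 4 * Real.log M0 + 8 * Real.log t := by
    rw [hQdef]
    push_cast
    linarith
  have hg0 : (0 : ℝ) ≤ g := by positivity
  have hH0 : (0 : ℝ) ≤ H := by positivity
  have hkey : s * (g + 1) + s * (H + 1 + Q) + 2
      ≤ (H + 13 + 4 * Real.log M0) * s * (g + 1 + Real.log t) := by
    have e1 : s * (g + 1) + s * (H + 1 + Q) + 2 ≤ s * (g + H + 4 + Q) := by nlinarith
    have e2 : s * (g + H + 4 + Q) ≤ s * (g + H + 5 + 4 * Real.log M0 + 8 * Real.log t) :=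
      mul_le_mul_of_nonneg_left (by linarith) hs0
    have e3 : (g : ℝ) + H + 5 + 4 * Real.log M0 + 8 * Real.log t
        ≤ (H + 13 + 4 * Real.log M0) * (g + 1 + Real.log t) := by
      have f1 : 0 ≤ (H : ℝ) * g := by positivity
      have f2 : 0 ≤ (H : ℝ) * Real.log t := by positivity
      have f3 : 0 ≤ Real.log M0 * g := by positivity
      have f4 : 0 ≤ Real.log M0 * Real.log t := by positivity
      nlinarith
    have e4 := mul_le_mul_of_nonneg_left e3 hs0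
    calc s * (g + 1) + s * (H + 1 + Q) + 2 ≤ s * (g + H + 4 + Q) := e1
      _ ≤ s * (g + H + 5 + 4 * Real.log M0 + 8 * Real.log t) := e2
      _ ≤ s * ((H + 13 + 4 * Real.log M0) * (g + 1 + Real.log t)) := e4
      _ = _ := by ring
  calc 2 * (s * (g + 1) + s * (H + 1 + Q) + 2)
      ≤ 2 * ((H + 13 + 4 * Real.log M0) * s * (g + 1 + Real.log t)) := by linarith
    _ = 2 * (H + 13 + 4 * Real.log M0) * s * (g + 1 + Real.log t) := by ring

end

end Pool.Agent.Helper27.NF
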