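import Pool.Agent.Helper28.NF.Stmts

/-!
# Dimension free Beck-Fiala, module N1: scalar inequalities
-/

namespace Pool.Agent.Helper27.NF

open Pool.Agent.Helper28.NF

noncomputable section

lemma Ph_second (a b : ℝ) : (Ph (b + a) + Ph (b - a)) / 2 - Ph b
    = a ^ 2 * (1 + a ^ 2 - 3 * b ^ 2) / ((1 + b ^ 2) * ((1 + a ^ 2 - b ^ 2) ^ 2 + 4 * b ^ 2)) := by
  unfold Ph
  have h1 : (1 + (b + a) ^ 2) ≠ 0 := by positivity
  have h2 : (1 + (b - a) ^ 2) ≠ 0 := by positivity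
  have h3 : (1 + b ^ 2) ≠ 0 := by positivity
  have h4 : (1 + a ^ 2 - b ^ 2) ^ 2 + 4 * b ^ 2 = (1 + (b + a) ^ 2) * (1 + (b - a) ^ 2) := by ring
  rw [h4]
  field_simp
  ring

lemma den_pos (a b : ℝ) : 0 < (1 + b ^ 2) * ((1 + a ^ 2 - b ^ 2) ^ 2 + 4 * b ^ 2) := by
  have h4 : (1 + a ^ 2 - b ^ 2) ^ 2 + 4 * b ^ 2 = (1 + (b + a) ^ 2) * (1 + (b - a) ^ 2) := by ring
  rw [h4]
  positivity

theorem st_PHI : ST_PHI := by
  refine ⟨?_, ?_, ?_, ?_⟩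
  · intro a b
    rw [Ph_second]
    unfold Ph
    rw [div_le_div_iff₀ (den_pos a b) (by positivity)]
    have h1 : (1 + a ^ 2 - 3 * b ^ 2) * (1 + a ^ 2)
        ≤ (1 + b ^ 2) * ((1 + a ^ 2 - b ^ 2) ^ 2 + 4 * b ^ 2) := by
      have e : (1 + b ^ 2) * ((1 + a ^ 2 - b ^ 2) ^ 2 + 4 * b ^ 2)
          - (1 + a ^ 2 - 3 * b ^ 2) * (1 + a ^ 2)
          = (1 + a ^ 2) * b ^ 2 + 5 * (b ^ 2) ^ 2 + 4 * b ^ 2
            + b ^ 2 * (1 + a ^ 2 - b ^ 2) ^ 2 := by ring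
      have : 0 ≤ (1 + a ^ 2) * b ^ 2 + 5 * (b ^ 2) ^ 2 + 4 * b ^ 2
            + b ^ 2 * (1 + a ^ 2 - b ^ 2) ^ 2 := by positivity
      linarith
    calc a ^ 2 * (1 + a ^ 2 - 3 * b ^ 2) * (1 + a ^ 2)
        = a ^ 2 * ((1 + a ^ 2 - 3 * b ^ 2) * (1 + a ^ 2)) := by ring
      _ ≤ a ^ 2 * ((1 + b ^ 2) * ((1 + a ^ 2 - b ^ 2) ^ 2 + 4 * b ^ 2)) :=
        mul_le_mul_of_nonneg_left h1 (sq_nonneg a)
  · intro a b hb
    rw [Ph_second]
    unfold Ph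
    rw [← mul_div_assoc, div_le_div_iff₀ (by positivity) (den_pos a b)]
    have hy : b ^ 2 ≤ 1 / 16 := by
      have := sq_le_sq' (abs_le.1 hb).1 (abs_le.1 hb).2
      linarith
    have hy0 : 0 ≤ b ^ 2 := sq_nonneg b
    have hx0 : 0 ≤ a ^ 2 := sq_nonneg a
    have h1 : 67 / 100 * ((1 + b ^ 2) * ((1 + a ^ 2 - b ^ 2) ^ 2 + 4 * b ^ 2))
        ≤ (1 + a ^ 2 - 3 * b ^ 2) * (1 + a ^ 2) := by
      generalize b ^ 2 = y at hy hy0 ⊢
      generalize a ^ 2 = x at hx0 ⊢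
      have e : (1 + x - 3 * y) * (1 + x) - 67 / 100 * ((1 + y) * ((1 + x - y) ^ 2 + 4 * y))
          = (x + 1) * x * (33 / 100 - 67 / 100 * y)
            + x * (33 / 100 - 233 / 100 * y + 134 / 100 * y ^ 2)
            + (33 / 100 - 501 / 100 * y - 201 / 100 * y ^ 2 - 67 / 100 * y ^ 3) := by ring
      have e1 : 0 ≤ (x + 1) * x * (33 / 100 - 67 / 100 * y) := by
        apply mul_nonneg (by positivity); linarith
      have e2 : 0 ≤ x * (33 / 100 - 233 / 100 * y + 134 / 100 * y ^ 2) := by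
        apply mul_nonneg hx0; nlinarith
      have e3 : 0 ≤ 33 / 100 - 501 / 100 * y - 201 / 100 * y ^ 2 - 67 / 100 * y ^ 3 := by
        have f1 : y ^ 2 ≤ 1 / 16 * y := by nlinarith
        have f2 : y ^ 3 ≤ 1 / 256 * y := by
          have : y ^ 3 = y * y ^ 2 := by ring
          nlinarith
        nlinarith
      linarith
    calc 67 / 100 * a ^ 2 * ((1 + b ^ 2) * ((1 + a ^ 2 - b ^ 2) ^ 2 + 4 * b ^ 2))
        = a ^ 2 * (67 / 100 * ((1 + b ^ 2) * ((1 + a ^ 2 - b ^ 2) ^ 2 + 4 * b ^ 2))) := by ring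
      _ ≤ a ^ 2 * ((1 + a ^ 2 - 3 * b ^ 2) * (1 + a ^ 2)) :=
        mul_le_mul_of_nonneg_left h1 (sq_nonneg a)
      _ = _ := by ring
  · intro a b
    rw [Ph_second]
    unfold Ph
    rw [← mul_div_assoc, div_le_div_iff₀ (by positivity) (den_pos a b)]
    have h1 : 0 ≤ (1 + a ^ 2 - 3 * b ^ 2) * (1 + a ^ 2)
        + 3 / 5 * ((1 + b ^ 2) * ((1 + a ^ 2 - b ^ 2) ^ 2 + 4 * b ^ 2)) := by
      have e : (1 + a ^ 2 - 3 * b ^ 2) * (1 + a ^ 2)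
        + 3 / 5 * ((1 + b ^ 2) * ((1 + a ^ 2 - b ^ 2) ^ 2 + 4 * b ^ 2))
        = ((1 + a ^ 2) - 3 / 2 * b ^ 2) ^ 2 + 3 / 20 * (b ^ 2) ^ 2 + 12 / 5 * b ^ 2
          + 3 / 5 * (1 + b ^ 2) * (1 + a ^ 2 - b ^ 2) ^ 2 := by ring
      rw [e]
      positivity
    have h2 := mul_nonneg (sq_nonneg a) h1
    nlinarith
  · intro L a b hL
    have hP : 0 < 1 + L * (b + a) ^ 2 := by positivity
    have hM : 0 < 1 + L * (b - a) ^ 2 := by positivity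
    have hN : 0 < 1 + L * b ^ 2 := by positivity
    have hA : 0 < 1 + L * a ^ 2 := by positivity
    have h1 : (1 + L * (b + a) ^ 2) * (1 + L * (b - a) ^ 2)
        ≤ ((1 + L * b ^ 2) * (1 + L * a ^ 2)) ^ 2 := by
      have hu : 0 ≤ L * a ^ 2 := by positivity
      have hv : 0 ≤ L * b ^ 2 := by positivity
      have e : ((1 + L * b ^ 2) * (1 + L * a ^ 2)) ^ 2
          - (1 + L * (b + a) ^ 2) * (1 + L * (b - a) ^ 2)
          = 2 * (1 + L * a ^ 2 + L * b ^ 2) * ((L * a ^ 2) * (L * b ^ 2))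
            + ((L * a ^ 2) * (L * b ^ 2)) ^ 2 + 4 * ((L * a ^ 2) * (L * b ^ 2)) := by ring
      have : 0 ≤ 2 * (1 + L * a ^ 2 + L * b ^ 2) * ((L * a ^ 2) * (L * b ^ 2))
            + ((L * a ^ 2) * (L * b ^ 2)) ^ 2 + 4 * ((L * a ^ 2) * (L * b ^ 2)) := by positivity
      linarith
    have h2 := Real.log_le_log (by positivity) h1
    rw [Real.log_mul hP.ne' hM.ne', Real.log_pow, Real.log_mul hN.ne' hA.ne'] at h2
    push_cast at h2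
    linarith

end

end Pool.Agent.Helper27.NF
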